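import Mathlib

/-!
# Counting compositions
-/

namespace Q58.Look

open Finset

variable {k : ℕ}

/-- compositions of `m` into `k` parts -/
abbrev Cm (k m : ℕ) : Finset (Fin k → ℕ) := Finset.finAntidiagonal k m

lemma mem_Cm {k m : ℕ} {f : Fin k → ℕ} : f ∈ Cm k m ↔ ∑ i, f i = m := Finset.mem_finAntidiagonal

/-- the number of compositions -/
def tc (k m : ℕ) : ℕ := (k + m - 1).choose m

lemma card_Cm (k m : ℕ) : (Cm k m).card = tc k m := by
  have h := Finset.card_finsuppAntidiag_nat_eq_choose (s := (Finset.univ : Finset (Fin k))) m
  rw [Finset.card_univ, Fintype.card_fin] at h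
  rw [tc, ← h]
  apply Finset.card_bij (fun f _ => Finsupp.equivFunOnFinite.symm f)
  · intro f hf
    rw [mem_Cm] at hf
    rw [Finset.mem_finsuppAntidiag]
    exact ⟨by simpa using hf, Finset.subset_univ _⟩
  · intro f _ g _ hfg
    exact Finsupp.equivFunOnFinite.symm.injective hfg
  · intro g hg
    rw [Finset.mem_finsuppAntidiag] at hg
    refine ⟨g, ?_, ?_⟩
    · rw [mem_Cm]; exact hg.1
    · ext i; rfl

lemma tc_succ (k m : ℕ) : tc k (m + 1) * (m + 1) = tc k m * (k + m) := by
  rcases Nat.eq_zero_or_pos k with rfl | hk
  · rcases Nat.eq_zero_or_pos m with rfl | hm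
    · simp [tc]
    · simp only [tc, Nat.zero_add]
      rw [Nat.choose_eq_zero_of_lt (by omega : m + 1 - 1 < m + 1),
        Nat.choose_eq_zero_of_lt (by omega : m - 1 < m)]
      simp
  · have h1 : k + (m + 1) - 1 = (k + m - 1) + 1 := by omega
    have h2 := Nat.add_one_mul_choose_eq (k + m - 1) m
    have h3 : k + m - 1 + 1 = k + m := by omega
    rw [tc, tc, h1, ← h2, h3]
    ring

/-- adding one unit to a coordinate -/
def up (i : Fin k) (v : Fin k → ℕ) : Fin k → ℕ := Function.update v i (v i + 1)

lemma sum_update_eq (v : Fin k → ℕ) (i : Fin k) (a : ℕ) :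
    ∑ j, Function.update v i a j + v i = ∑ j, v j + a := by
  rw [Finset.sum_update_of_mem (Finset.mem_univ i), ← Finset.add_sum_erase _ v (Finset.mem_univ i)]
  rw [Finset.sdiff_singleton_eq_erase]
  ring

/-- number of compositions with a coordinate at least `l`, as a sum over shifted compositions -/
lemma card_ge {m l : ℕ} (hl : l ≤ m) (i : Fin k) :
    ((Cm k m).filter (fun u => l ≤ u i)).card = tc k (m - l) := by
  rw [← card_Cm]
  symm
  apply Finset.card_bij (fun v _ => Function.update v i (v i + l))
  · intro v hv
    rw [mem_Cm] at hv
    rw [Finset.mem_filter, mem_Cm]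
    have := sum_update_eq v i (v i + l)
    constructor
    · omega
    · rw [Function.update_self]; omega
  · intro v _ w _ h
    funext j
    have := congrFun h j
    by_cases hj : j = i
    · subst hj
      rw [Function.update_self, Function.update_self] at this
      omega
    · rwa [Function.update_of_ne hj, Function.update_of_ne hj] at this
  · intro u hu
    rw [Finset.mem_filter, mem_Cm] at hu
    refine ⟨Function.update u i (u i - l), ?_, ?_⟩
    · rw [mem_Cm]
      have := sum_update_eq u i (u i - l)
      omega
    · funext j
      by_cases hj : j = i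
      · subst hj
        rw [Function.update_self, Function.update_self]
        omega
      · rw [Function.update_of_ne hj, Function.update_of_ne hj]

lemma card_ge_gt {m l : ℕ} (hl : m < l) (i : Fin k) :
    ((Cm k m).filter (fun u => l ≤ u i)).card = 0 := by
  rw [Finset.card_eq_zero, Finset.filter_eq_empty_iff]
  intro u hu
  rw [mem_Cm] at hu
  have := Finset.single_le_sum (f := u) (fun j _ => Nat.zero_le _) (Finset.mem_univ i)
  omega

/-- two coordinates at least `l` -/
lemma card_ge2 {m l : ℕ} (hl : 2 * l ≤ m) {i j : Fin k} (hij : i ≠ j) :
    ((Cm k m).filter (fun u => l ≤ u i ∧ l ≤ u j)).card = tc k (m - 2 * l) := by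
  have h1 : m - 2 * l = m - l - l := by omega
  rw [h1, ← card_ge (m := m - l) (l := l) (by omega) j]
  symm
  apply Finset.card_bij (fun v _ => Function.update v i (v i + l))
  · intro v hv
    rw [Finset.mem_filter, mem_Cm] at hv
    rw [Finset.mem_filter, mem_Cm]
    have := sum_update_eq v i (v i + l)
    refine ⟨by omega, ?_, ?_⟩
    · rw [Function.update_self]; omega
    · rw [Function.update_of_ne hij.symm]; exact hv.2
  · intro v _ w _ h
    funext a
    have := congrFun h a
    by_cases ha : a = i
    · subst ha
      rw [Function.update_self, Function.update_self] at this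
      omega
    · rwa [Function.update_of_ne ha, Function.update_of_ne ha] at this
  · intro u hu
    rw [Finset.mem_filter, mem_Cm] at hu
    refine ⟨Function.update u i (u i - l), ?_, ?_⟩
    · rw [Finset.mem_filter, mem_Cm]
      have := sum_update_eq u i (u i - l)
      refine ⟨by omega, ?_⟩
      rw [Function.update_of_ne hij.symm]; exact hu.2.2
    · funext a
      by_cases ha : a = i
      · subst ha
        rw [Function.update_self, Function.update_self]
        omega
      · rw [Function.update_of_ne ha, Function.update_of_ne ha]

/-- the basic bijection: raising coordinate `i` of a composition of `m` -/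
lemma sum_up {M : Type*} [AddCommMonoid M] (m : ℕ) (i : Fin k) (F : (Fin k → ℕ) → M) :
    ∑ v ∈ Cm k m, F (up i v) = ∑ u ∈ (Cm k (m + 1)).filter (fun u => u i ≠ 0), F u := by
  apply Finset.sum_bij (fun v _ => up i v)
  · intro v hv
    rw [mem_Cm] at hv
    rw [Finset.mem_filter, mem_Cm]
    have := sum_update_eq v i (v i + 1)
    refine ⟨by rw [up]; omega, ?_⟩
    rw [up, Function.update_self]; omega
  · intro v _ w _ h
    funext a
    have := congrFun h a
    by_cases ha : a = i
    · subst ha
      rw [up, up, Function.update_self, Function.update_self] at this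
      omega
    · rwa [up, up, Function.update_of_ne ha, Function.update_of_ne ha] at this
  · intro u hu
    rw [Finset.mem_filter, mem_Cm] at hu
    refine ⟨Function.update u i (u i - 1), ?_, ?_⟩
    · rw [mem_Cm]
      have := sum_update_eq u i (u i - 1)
      omega
    · funext a
      by_cases ha : a = i
      · subst ha
        rw [up, Function.update_self, Function.update_self]
        omega
      · rw [up, Function.update_of_ne ha, Function.update_of_ne ha]
  · intro v _; rfl

end Q58.Look
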