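import Mathlib

/-!
# Definitions: single-item auctions with correlated bidders and the `k`-lookahead mechanism
-/

namespace Q58.Look

open Finset

/-- A finitely supported joint distribution of positive valuations of `n` bidders. -/
structure ValDist (n : ℕ) where
  /-- the support -/
  supp : Finset (Fin n → ℝ)
  /-- the probability of each profile of the support -/
  prob : (Fin n → ℝ) → ℝ
  pos : ∀ v ∈ supp, ∀ i, 0 < v i
  prob_pos : ∀ v ∈ supp, 0 < prob v
  sum_one : ∑ v ∈ supp, prob v = 1

/-- A direct mechanism: `x v i` is the probability that bidder `i` receives the item and `p v i`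
is her expected payment when the bids are `v`. -/
structure Mech (n : ℕ) where
  x : (Fin n → ℝ) → Fin n → ℝ
  p : (Fin n → ℝ) → Fin n → ℝ

/-- `M` is a truthful-in-expectation and individually rational mechanism that serves the bidders
of `K` only, the values of the bidders outside `K` being fixed to those of `w`: these conditions
are imposed at all profiles of positive values which agree with `w` outside `K`. -/
def Mech.Valid {n : ℕ} (M : Mech n) (K : Finset (Fin n)) (w : Fin n → ℝ) : Prop :=
  ∀ v : Fin n → ℝ, (∀ i, 0 < v i) → (∀ j, j ∉ K → v j = w j) →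
    (∀ i, 0 ≤ M.x v i) ∧ ∑ i, M.x v i ≤ 1 ∧
    (∀ j, j ∉ K → M.x v j = 0 ∧ M.p v j = 0) ∧
    (∀ i ∈ K, 0 ≤ v i * M.x v i - M.p v i) ∧
    (∀ i ∈ K, ∀ t : ℝ, 0 < t →
      v i * M.x (Function.update v i t) i - M.p (Function.update v i t) i
        ≤ v i * M.x v i - M.p v i)

/-- Expected revenue of `M` under the distribution `D` conditioned on the profile lying in the
subset `S` of its support. -/
noncomputable def revenue {n : ℕ} (D : ValDist n) (S : Finset (Fin n → ℝ)) (M : Mech n) : ℝ :=
  (∑ v ∈ S, D.prob v * ∑ i, M.p v i) / ∑ v ∈ S, D.prob v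

/-- The largest expected revenue, under `D` conditioned on `S`, of a truthful-in-expectation and
individually rational mechanism serving only the bidders of `K`, the values outside `K` being
those of `w`. -/
noncomputable def optRev {n : ℕ} (D : ValDist n) (S : Finset (Fin n → ℝ)) (K : Finset (Fin n))
    (w : Fin n → ℝ) : ℝ :=
  sSup {r | ∃ M : Mech n, M.Valid K w ∧ r = revenue D S M}

/-- `OPT(D)`: the largest expected revenue of a truthful-in-expectation and individually rational
mechanism (all bidders may be served; the reference profile `0` plays no role here). -/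
noncomputable def OPT {n : ℕ} (D : ValDist n) : ℝ := optRev D D.supp Finset.univ 0

open Classical in
/-- The `k` highest bidders, ties broken in favour of the smaller index: bidder `i` belongs to
this set iff fewer than `k` bidders precede her. -/
noncomputable def topK {n : ℕ} (k : ℕ) (v : Fin n → ℝ) : Finset (Fin n) :=
  Finset.univ.filter fun i =>
    (Finset.univ.filter fun j => v i < v j ∨ (v j = v i ∧ j < i)).card < k

open Classical in
/-- The support of `D_K`: the profiles of the support of `D` which agree with `w` outside `K` and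
in which every bidder of `K` has value at least `max_{j ∉ K} w j`. -/
noncomputable def condSupp {n : ℕ} (D : ValDist n) (K : Finset (Fin n)) (w : Fin n → ℝ) :
    Finset (Fin n → ℝ) :=
  D.supp.filter fun v => (∀ j, j ∉ K → v j = w j) ∧ ∀ i ∈ K, ∀ j, j ∉ K → w j ≤ v i

/-- `rev_k(D)`: when the profile is `v`, the set `K` of the `k` highest bidders is served by a
revenue-optimal mechanism for the conditional distribution `D_K`. -/
noncomputable def lookaheadRev {n : ℕ} (k : ℕ) (D : ValDist n) : ℝ :=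
  ∑ v ∈ D.supp, D.prob v * optRev D (condSupp D (topK k v) v) (topK k v) v

/-- The approximation ratio `ρ_k` of the `k`-lookahead mechanism. -/
noncomputable def rho (k : ℕ) : ℝ :=
  sInf {r | ∃ (n : ℕ) (D : ValDist n), 0 < OPT D ∧ r = lookaheadRev k D / OPT D}

/-! ## Basic facts -/

lemma sum_prob_nonneg {n : ℕ} (D : ValDist n) {S : Finset (Fin n → ℝ)} (hS : S ⊆ D.supp) :
    0 ≤ ∑ v ∈ S, D.prob v :=
  Finset.sum_nonneg fun v hv => (D.prob_pos v (hS hv)).le

lemma zero_valid {n : ℕ} (K : Finset (Fin n)) (w : Fin n → ℝ) :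
    (⟨fun _ _ => 0, fun _ _ => 0⟩ : Mech n).Valid K w := by
  intro v _ _
  refine ⟨fun _ => le_rfl, by simp, fun _ _ => ⟨rfl, rfl⟩, fun _ _ => by simp, fun _ _ _ _ => by simp⟩

lemma optRev_nonneg {n : ℕ} (D : ValDist n) (S : Finset (Fin n → ℝ)) (K : Finset (Fin n))
    (w : Fin n → ℝ) : 0 ≤ optRev D S K w := by
  apply Real.sSup_nonneg'
  refine ⟨0, ⟨⟨fun _ _ => 0, fun _ _ => 0⟩, zero_valid K w, ?_⟩, le_rfl⟩
  simp [revenue]

lemma lookaheadRev_nonneg {n : ℕ} (k : ℕ) (D : ValDist n) : 0 ≤ lookaheadRev k D :=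
  Finset.sum_nonneg fun v hv => mul_nonneg (D.prob_pos v hv).le (optRev_nonneg _ _ _ _)

lemma rho_le {n : ℕ} (k : ℕ) (D : ValDist n) (h : 0 < OPT D) : rho k ≤ lookaheadRev k D / OPT D := by
  apply csInf_le
  · refine ⟨0, ?_⟩
    rintro r ⟨m, E, hE, rfl⟩
    exact div_nonneg (lookaheadRev_nonneg k E) hE.le
  · exact ⟨n, D, h, rfl⟩

/-- payments are at most values for valid mechanisms -/
lemma Mech.Valid.p_le {n : ℕ} {M : Mech n} {K : Finset (Fin n)} {w : Fin n → ℝ} (h : M.Valid K w)
    {v : Fin n → ℝ} (hv : ∀ i, 0 < v i) (hw : ∀ j, j ∉ K → v j = w j) (i : Fin n) :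
    M.p v i ≤ v i * M.x v i := by
  obtain ⟨h0, h1, h2, h3, h4⟩ := h v hv hw
  by_cases hi : i ∈ K
  · linarith [h3 i hi]
  · rw [(h2 i hi).1, (h2 i hi).2]; simp

lemma Mech.Valid.x_le_one {n : ℕ} {M : Mech n} {K : Finset (Fin n)} {w : Fin n → ℝ}
    (h : M.Valid K w) {v : Fin n → ℝ} (hv : ∀ i, 0 < v i) (hw : ∀ j, j ∉ K → v j = w j)
    (i : Fin n) : M.x v i ≤ 1 := by
  obtain ⟨h0, h1, -⟩ := h v hv hw
  exact le_trans (Finset.single_le_sum (fun j _ => h0 j) (Finset.mem_univ i)) h1

/-- The revenues of valid mechanisms are bounded above. -/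
lemma bddAbove_rev {n : ℕ} (D : ValDist n) {S : Finset (Fin n → ℝ)} (hS : S ⊆ D.supp)
    (K : Finset (Fin n)) (w : Fin n → ℝ) (hw : ∀ v ∈ S, ∀ j, j ∉ K → v j = w j) :
    BddAbove {r | ∃ M : Mech n, M.Valid K w ∧ r = revenue D S M} := by
  refine ⟨(∑ v ∈ S, D.prob v * ∑ i, v i) / ∑ v ∈ S, D.prob v, ?_⟩
  rintro r ⟨M, hM, rfl⟩
  unfold revenue
  apply div_le_div_of_nonneg_right _ (sum_prob_nonneg D hS)
  apply Finset.sum_le_sum
  intro v hv
  apply mul_le_mul_of_nonneg_left _ (D.prob_pos v (hS hv)).le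
  apply Finset.sum_le_sum
  intro i _
  have hp := D.pos v (hS hv)
  calc M.p v i ≤ v i * M.x v i := hM.p_le hp (hw v hv) i
    _ ≤ v i * 1 := mul_le_mul_of_nonneg_left (hM.x_le_one hp (hw v hv) i) (hp i).le
    _ = v i := mul_one _

lemma le_OPT {n : ℕ} (D : ValDist n) {M : Mech n} (hM : M.Valid Finset.univ 0) :
    ∑ v ∈ D.supp, D.prob v * ∑ i, M.p v i ≤ OPT D := by
  have h := le_csSup (bddAbove_rev D (le_refl _) Finset.univ 0
    (fun _ _ j hj => absurd (Finset.mem_univ j) hj)) ⟨M, hM, rfl⟩
  rw [revenue, D.sum_one, div_one] at h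
  exact h

end Q58.Look
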