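import Pool.Agent.Q58.Look.Lev
import Pool.Agent.Q58.Look.Defs

/-!
# The distribution
-/

namespace Q58.Look

open Finset

/-- the profile of values: bidder `i < k` has value `lev (u i)`, the last bidder has value `1` -/
noncomputable def val (L : ℕ) (u : Fin (kk L) → ℕ) : Fin (kk L + 1) → ℝ :=
  Fin.snoc (α := fun _ => ℝ) (fun i => lev L (u i)) 1

@[simp] lemma val_castSucc (L : ℕ) (u : Fin (kk L) → ℕ) (i : Fin (kk L)) :
    val L u i.castSucc = lev L (u i) := by simp [val]

@[simp] lemma val_last (L : ℕ) (u : Fin (kk L) → ℕ) : val L u (Fin.last _) = 1 := by simp [val]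

lemma val_pos (L : ℕ) (u : Fin (kk L) → ℕ) (i : Fin (kk L + 1)) : 0 < val L u i := by
  refine Fin.lastCases ?_ (fun i => ?_) i
  · simp
  · rw [val_castSucc]; linarith [lev_gt_one L (u i)]

lemma val_inj (L : ℕ) : Function.Injective (val L) := by
  intro u w h
  funext i
  have := congrFun h i.castSucc
  rw [val_castSucc, val_castSucc] at this
  exact (lev_strictMono L).injective this

lemma disj_OT (L : ℕ) : Disjoint (OO L) (TT L) := by
  rw [Finset.disjoint_left]
  intro u h1 h2
  rw [mem_Cm] at h1 h2
  have := NN_pos L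
  omega

/-- all compositions used -/
abbrev WW (L : ℕ) : Finset (Fin (kk L) → ℕ) := OO L ∪ TT L

lemma card_WW_pos (L : ℕ) : (0 : ℝ) < (WW L).card := by
  have h1 : (0 : ℝ) < (TT L).card := by
    rw [card_TT]; exact tr_pos (by unfold kk; omega) _
  have h2 : (TT L).card ≤ (WW L).card := Finset.card_le_card Finset.subset_union_right
  have h3 : ((TT L).card : ℝ) ≤ (WW L).card := by exact_mod_cast h2
  linarith

open Classical in
/-- the distribution: uniform on the profiles of compositions of `N - 1` and of `N` -/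
noncomputable def DD (L : ℕ) : ValDist (kk L + 1) where
  supp := (WW L).image (val L)
  prob := fun _ => 1 / (WW L).card
  pos := by
    intro v hv i
    rw [Finset.mem_image] at hv
    obtain ⟨u, -, rfl⟩ := hv
    exact val_pos L u i
  prob_pos := by
    intro v _
    exact one_div_pos.mpr (card_WW_pos L)
  sum_one := by
    rw [Finset.sum_const, Finset.card_image_of_injective _ (val_inj L), nsmul_eq_mul,
      mul_one_div_cancel (card_WW_pos L).ne']

lemma mem_supp {L : ℕ} {v : Fin (kk L + 1) → ℝ} :
    v ∈ (DD L).supp ↔ ∃ u ∈ WW L, val L u = v := by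
  classical
  show v ∈ (WW L).image (val L) ↔ _
  rw [Finset.mem_image]

lemma sum_supp (L : ℕ) (F : (Fin (kk L + 1) → ℝ) → ℝ) :
    ∑ v ∈ (DD L).supp, (DD L).prob v * F v
      = (1 / (WW L).card) * (∑ u ∈ OO L, F (val L u) + ∑ u ∈ TT L, F (val L u)) := by
  classical
  show ∑ v ∈ (WW L).image (val L), (1 / ((WW L).card : ℝ)) * F v = _
  rw [← Finset.mul_sum, Finset.sum_image (fun a _ b _ h => val_inj L h),
    Finset.sum_union (disj_OT L)]

/-- the top `k` bidders are the first `k` ones -/
lemma topK_val (L : ℕ) (u : Fin (kk L) → ℕ) :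
    topK (kk L) (val L u) = Finset.univ.erase (Fin.last _) := by
  classical
  ext i
  unfold topK
  rw [Finset.mem_filter, Finset.mem_erase]
  refine Fin.lastCases ?_ (fun i => ?_) i
  · simp only [Finset.mem_univ, true_and, ne_eq, not_true_eq_false, and_true, iff_false, not_lt]
    have : (Finset.univ.filter fun j : Fin (kk L + 1) =>
        val L u (Fin.last _) < val L u j ∨ (val L u j = val L u (Fin.last _) ∧ j < Fin.last _))
        = Finset.univ.erase (Fin.last _) := by
      ext j
      rw [Finset.mem_filter, Finset.mem_erase]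
      refine Fin.lastCases ?_ (fun j => ?_) j
      · simp
      · have h1 := lev_gt_one L (u j)
        have h2 : j.castSucc ≠ Fin.last _ := (Fin.castSucc_lt_last j).ne
        simp [h1, h2]
    rw [this, Finset.card_erase_of_mem (Finset.mem_univ _), Finset.card_univ, Fintype.card_fin]
    omega
  · have h2 : i.castSucc ≠ Fin.last _ := (Fin.castSucc_lt_last i).ne
    simp only [Finset.mem_univ, true_and, ne_eq, h2, not_false_eq_true, and_true, iff_true]
    have hsub : (Finset.univ.filter fun j : Fin (kk L + 1) =>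
        val L u i.castSucc < val L u j ∨ (val L u j = val L u i.castSucc ∧ j < i.castSucc))
        ⊆ (Finset.univ.erase (Fin.last _)).erase i.castSucc := by
      intro j hj
      rw [Finset.mem_filter] at hj
      rw [Finset.mem_erase, Finset.mem_erase]
      refine ⟨?_, ?_, Finset.mem_univ _⟩
      · rintro rfl
        rcases hj.2 with h | h
        · exact lt_irrefl _ h
        · exact lt_irrefl _ h.2
      · rintro rfl
        have h1 := lev_gt_one L (u i)
        rw [val_last, val_castSucc] at hj
        rcases hj.2 with h | h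
        · linarith
        · linarith [h.1]
    have hc := Finset.card_le_card hsub
    rw [Finset.card_erase_of_mem, Finset.card_erase_of_mem (Finset.mem_univ _), Finset.card_univ,
      Fintype.card_fin] at hc
    · have : 0 < kk L := by unfold kk; omega
      omega
    · rw [Finset.mem_erase]; exact ⟨h2, Finset.mem_univ _⟩

lemma notMem_K {L : ℕ} {j : Fin (kk L + 1)} (hj : j ∉ Finset.univ.erase (Fin.last (kk L))) :
    j = Fin.last _ := by
  by_contra h
  exact hj (Finset.mem_erase.mpr ⟨h, Finset.mem_univ _⟩)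

lemma condSupp_val (L : ℕ) (u : Fin (kk L) → ℕ) :
    condSupp (DD L) (Finset.univ.erase (Fin.last _)) (val L u) = (DD L).supp := by
  classical
  unfold condSupp
  rw [Finset.filter_eq_self]
  intro v hv
  rw [mem_supp] at hv
  obtain ⟨w, -, rfl⟩ := hv
  constructor
  · intro j hj
    rw [notMem_K hj, val_last, val_last]
  · intro i hi j hj
    rw [notMem_K hj, val_last]
    rw [Finset.mem_erase] at hi
    obtain ⟨i, rfl⟩ := Fin.exists_castSucc_eq.mpr hi.1
    rw [val_castSucc]
    exact (lev_gt_one L _).le

/-- boundary ties never occur -/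
lemma no_ties (L : ℕ) : ∀ v ∈ (DD L).supp, ∀ i ∈ topK (kk L) v, ∀ j, j ∉ topK (kk L) v →
    v j < v i := by
  intro v hv i hi j hj
  rw [mem_supp] at hv
  obtain ⟨u, -, rfl⟩ := hv
  rw [topK_val] at hi hj
  rw [notMem_K hj, val_last]
  rw [Finset.mem_erase] at hi
  obtain ⟨i, rfl⟩ := Fin.exists_castSucc_eq.mpr hi.1
  rw [val_castSucc]
  exact lev_gt_one L _

/-- raising one coordinate -/
lemma val_up (L : ℕ) (u : Fin (kk L) → ℕ) (i : Fin (kk L)) :
    val L (up i u) = Function.update (val L u) i.castSucc (lev L (u i + 1)) := by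
  funext j
  refine Fin.lastCases ?_ (fun j => ?_) j
  · rw [val_last, Function.update_of_ne (Fin.castSucc_lt_last i).ne', val_last]
  · rw [val_castSucc]
    by_cases h : j = i
    · subst h; rw [Function.update_self, up, Function.update_self]
    · rw [Function.update_of_ne (fun h' => h (Fin.castSucc_injective _ h')), val_castSucc, up,
        Function.update_of_ne h]

lemma val_down (L : ℕ) (u : Fin (kk L) → ℕ) (i : Fin (kk L)) :
    Function.update (val L (up i u)) i.castSucc (lev L (u i)) = val L u := by
  rw [val_up, Function.update_idem]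
  funext j
  by_cases h : j = i.castSucc
  · subst h; rw [Function.update_self, val_castSucc]
  · rw [Function.update_of_ne h]

/-! ## The upper bound for the first `k` bidders -/

section Upper

variable {L : ℕ} {M : Mech (kk L + 1)} {w : Fin (kk L + 1) → ℝ}

lemma valid_at (hM : M.Valid (Finset.univ.erase (Fin.last _)) w) (hw : w (Fin.last _) = 1)
    (u : Fin (kk L) → ℕ) :
    (∀ i : Fin (kk L), 0 ≤ M.x (val L u) i.castSucc) ∧
    ∑ i : Fin (kk L), M.x (val L u) i.castSucc ≤ 1 ∧
    M.p (val L u) (Fin.last _) = 0 ∧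
    (∀ i : Fin (kk L), M.p (val L u) i.castSucc ≤ lev L (u i) * M.x (val L u) i.castSucc) ∧
    (∀ i : Fin (kk L), ∀ t : ℝ, 0 < t →
      lev L (u i) * M.x (Function.update (val L u) i.castSucc t) i.castSucc
        - M.p (Function.update (val L u) i.castSucc t) i.castSucc
        ≤ lev L (u i) * M.x (val L u) i.castSucc - M.p (val L u) i.castSucc) := by
  have h := hM (val L u) (val_pos L u) (fun j hj => by rw [notMem_K hj, val_last, hw])
  obtain ⟨h0, h1, h2, h3, h4⟩ := h
  have hl := h2 (Fin.last _) (by simp)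
  have hmem : ∀ i : Fin (kk L), i.castSucc ∈ Finset.univ.erase (Fin.last (kk L)) := fun i =>
    Finset.mem_erase.mpr ⟨(Fin.castSucc_lt_last i).ne, Finset.mem_univ _⟩
  refine ⟨fun i => h0 _, ?_, hl.2, ?_, ?_⟩
  · rw [Fin.sum_univ_castSucc, hl.1, add_zero] at h1
    exact h1
  · intro i
    have := h3 _ (hmem i)
    rw [val_castSucc] at this
    linarith
  · intro i t ht
    have := h4 _ (hmem i) t ht
    rwa [val_castSucc] at this

/-- the pair inequality -/
lemma pair_le (hM : M.Valid (Finset.univ.erase (Fin.last _)) w) (hw : w (Fin.last _) = 1)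
    (u : Fin (kk L) → ℕ) (i : Fin (kk L)) :
    M.p (val L u) i.castSucc + M.p (val L (up i u)) i.castSucc
      ≤ M.x (val L (up i u)) i.castSucc * max 2.2 (lev L (up i u i)) := by
  obtain ⟨h0, -, -, h3, h4⟩ := valid_at hM hw u
  obtain ⟨g0, -, -, g3, g4⟩ := valid_at hM hw (up i u)
  have e : up i u i = u i + 1 := by rw [up, Function.update_self]
  have a1 := h4 i (lev L (u i + 1)) (by linarith [lev_gt_one L (u i + 1)])
  rw [← val_up] at a1
  have a2 := g4 i (lev L (u i)) (by linarith [lev_gt_one L (u i)])
  rw [val_down, e] at a2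
  have a3 := h3 i
  have hmono : M.x (val L u) i.castSucc ≤ M.x (val L (up i u)) i.castSucc := by
    have hlt := lev_strictMono L (Nat.lt_succ_self (u i))
    simp only [Nat.succ_eq_add_one] at hlt
    nlinarith
  have key := lev_double (L := L) (l := u i) (h0 i) hmono
  rw [e]
  nlinarith

lemma upper_sum (hM : M.Valid (Finset.univ.erase (Fin.last _)) w) (hw : w (Fin.last _) = 1) :
    ∑ u ∈ OO L, ∑ i, M.p (val L u) i + ∑ u ∈ TT L, ∑ i, M.p (val L u) i
      ≤ ∑ u ∈ TT L, MM L u + 0.1 * tr (kk L) (NN L) := by
  have hp : ∀ u : Fin (kk L) → ℕ, ∑ i, M.p (val L u) i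
      = ∑ i : Fin (kk L), M.p (val L u) i.castSucc := by
    intro u
    rw [Fin.sum_univ_castSucc, (valid_at hM hw u).2.2.1, add_zero]
  rw [Finset.sum_congr rfl (fun u _ => hp u), Finset.sum_congr rfl (fun u _ => hp u),
    Finset.sum_comm, Finset.sum_comm (s := TT L), ← Finset.sum_add_distrib]
  -- bound for each bidder
  have hi : ∀ i : Fin (kk L),
      ∑ u ∈ OO L, M.p (val L u) i.castSucc + ∑ u ∈ TT L, M.p (val L u) i.castSucc
        ≤ ∑ u ∈ TT L, M.x (val L u) i.castSucc * max 2.2 (lev L (u i)) := by
    intro i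
    have hN : NN L - 1 + 1 = NN L := by have := NN_pos L; omega
    have s1 := sum_up (NN L - 1) i (fun u => M.p (val L u) i.castSucc)
    have s2 := sum_up (NN L - 1) i
      (fun u => M.x (val L u) i.castSucc * max 2.2 (lev L (u i)))
    rw [hN] at s1 s2
    rw [← Finset.sum_filter_add_sum_filter_not (TT L) (fun u => u i ≠ 0)
        (fun u => M.p (val L u) i.castSucc),
      ← Finset.sum_filter_add_sum_filter_not (TT L) (fun u => u i ≠ 0)
        (fun u => M.x (val L u) i.castSucc * max 2.2 (lev L (u i))), ← s1, ← s2, ← add_assoc,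
      ← Finset.sum_add_distrib]
    apply add_le_add
    · exact Finset.sum_le_sum fun u _ => pair_le hM hw u i
    · apply Finset.sum_le_sum
      intro u _
      obtain ⟨h0, -, -, h3, -⟩ := valid_at hM hw u
      calc M.p (val L u) i.castSucc ≤ lev L (u i) * M.x (val L u) i.castSucc := h3 i
        _ = M.x (val L u) i.castSucc * lev L (u i) := mul_comm _ _
        _ ≤ _ := mul_le_mul_of_nonneg_left (le_max_right _ _) (h0 i)
  refine le_trans (Finset.sum_le_sum fun i _ => hi i) ?_
  rw [Finset.sum_comm]
  -- bound for each profile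
  have hu : ∀ u ∈ TT L, ∑ i : Fin (kk L), M.x (val L u) i.castSucc * max 2.2 (lev L (u i))
      ≤ MM L u + if ∀ i, u i < L then 1.2 else 0 := by
    intro u _
    obtain ⟨h0, h1, -, -, -⟩ := valid_at hM hw u
    have hstep : ∑ i : Fin (kk L), M.x (val L u) i.castSucc * max 2.2 (lev L (u i))
        ≤ ∑ i : Fin (kk L), M.x (val L u) i.castSucc * max 2.2 (MM L u) := by
      apply Finset.sum_le_sum
      intro i _
      exact mul_le_mul_of_nonneg_left (max_le_max le_rfl (lev_le_MM L u i)) (h0 i)
    rw [← Finset.sum_mul] at hstep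
    have hmx : (0 : ℝ) ≤ max 2.2 (MM L u) := le_trans (by norm_num) (le_max_left _ _)
    have h2 : (∑ i : Fin (kk L), M.x (val L u) i.castSucc) * max 2.2 (MM L u)
        ≤ max 2.2 (MM L u) := by
      have := mul_le_mul_of_nonneg_right h1 hmx
      linarith
    refine le_trans (le_trans hstep h2) ?_
    by_cases hlow : ∀ i, u i < L
    · rw [if_pos hlow]
      have := one_le_MM L u
      apply max_le
      · linarith
      · linarith
    · rw [if_neg hlow, add_zero]
      push Not at hlow
      obtain ⟨i, hi⟩ := hlow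
      apply max_le _ le_rfl
      calc (2.2 : ℝ) = lev L L := (lev_at L).symm
        _ ≤ lev L (u i) := (lev_strictMono L).monotone hi
        _ ≤ MM L u := lev_le_MM L u i
  refine le_trans (Finset.sum_le_sum hu) ?_
  rw [Finset.sum_add_distrib, ← Finset.sum_filter, Finset.sum_const, nsmul_eq_mul]
  have := few_low L
  linarith

end Upper

/-- a valid mechanism for the first `k` bidders has small revenue -/
lemma lookahead_le (L : ℕ) : lookaheadRev (kk L) (DD L)
    ≤ (1 / (WW L).card) * (∑ u ∈ TT L, MM L u + 0.1 * tr (kk L) (NN L)) := by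
  set B := (1 / ((WW L).card : ℝ)) * (∑ u ∈ TT L, MM L u + 0.1 * tr (kk L) (NN L)) with hB
  unfold lookaheadRev
  have h1 : ∀ v ∈ (DD L).supp, (DD L).prob v *
      optRev (DD L) (condSupp (DD L) (topK (kk L) v) v) (topK (kk L) v) v
        ≤ (DD L).prob v * B := by
    intro v hv
    apply mul_le_mul_of_nonneg_left _ ((DD L).prob_pos v hv).le
    rw [mem_supp] at hv
    obtain ⟨u, -, rfl⟩ := hv
    rw [topK_val, condSupp_val]
    unfold optRev
    apply csSup_le
    · exact ⟨_, ⟨_, zero_valid _ _, rfl⟩⟩
    · rintro r ⟨M, hM, rfl⟩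
      rw [revenue, (DD L).sum_one, div_one, sum_supp L (fun v => ∑ i, M.p v i), hB]
      apply mul_le_mul_of_nonneg_left (upper_sum hM (val_last L u))
      exact one_div_nonneg.mpr (card_WW_pos L).le
  refine le_trans (Finset.sum_le_sum h1) ?_
  rw [← Finset.sum_mul, (DD L).sum_one, one_mul]

end Q58.Look
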