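import Pool.Agent.Q58.Look.Num

/-!
# The level function and the moment estimates
-/

namespace Q58.Look

open Finset

/-- the values: slowly increasing near `1` below level `L`, doubling from level `L` on -/
noncomputable def lev (L l : ℕ) : ℝ :=
  if l < L then 1 + (l + 1) / (10 * (L + 1)) else 1.1 * 2 ^ (l + 1 - L)

lemma lev_lt {L l : ℕ} (h : l < L) : lev L l = 1 + (l + 1) / (10 * (L + 1)) := if_pos h

lemma lev_ge {L l : ℕ} (h : L ≤ l) : lev L l = 1.1 * 2 ^ (l + 1 - L) := if_neg (by omega)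

lemma lev_low {L l : ℕ} (h : l < L) : lev L l ≤ 1.1 := by
  rw [lev_lt h]
  have hl : (l : ℝ) + 1 ≤ L := by exact_mod_cast h
  have : ((l : ℝ) + 1) / (10 * (L + 1)) ≤ 0.1 := by
    rw [div_le_iff₀ (by positivity)]
    linarith
  linarith

lemma lev_gt_one (L l : ℕ) : 1 < lev L l := by
  by_cases h : l < L
  · rw [lev_lt h]
    have : (0 : ℝ) < ((l : ℝ) + 1) / (10 * (L + 1)) := by positivity
    linarith
  · rw [lev_ge (by omega)]
    have : (1 : ℝ) ≤ 2 ^ (l + 1 - L) := one_le_pow₀ (by norm_num)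
    linarith

lemma lev_succ_ge {L l : ℕ} (h : L ≤ l) : lev L (l + 1) = 2 * lev L l := by
  rw [lev_ge h, lev_ge (by omega), show l + 1 + 1 - L = (l + 1 - L) + 1 by omega, pow_succ]
  ring

lemma lev_at (L : ℕ) : lev L L = 2.2 := by
  rw [lev_ge le_rfl, show L + 1 - L = 1 by omega]; norm_num

lemma lev_strictMono (L : ℕ) : StrictMono (lev L) := by
  apply strictMono_nat_of_lt_succ
  intro l
  by_cases h : L ≤ l
  · rw [lev_succ_ge h]
    linarith [lev_gt_one L l]
  · by_cases h2 : l + 1 < L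
    · rw [lev_lt h2, lev_lt (by omega)]
      have : ((l : ℝ) + 1) / (10 * (L + 1)) < (((l + 1 : ℕ) : ℝ) + 1) / (10 * (L + 1)) := by
        apply div_lt_div_of_pos_right _ (by positivity)
        push_cast; linarith
      linarith
    · have h3 : l + 1 = L := by omega
      rw [h3, lev_at]
      linarith [lev_low (L := L) (l := l) (by omega)]

/-- the key inequality on consecutive levels -/
lemma lev_double {L l : ℕ} {a b : ℝ} (h0 : 0 ≤ a) (hab : a ≤ b) :
    a * (2 * lev L l - lev L (l + 1)) + b * lev L (l + 1) ≤ b * max 2.2 (lev L (l + 1)) := by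
  have hb : 0 ≤ b := h0.trans hab
  by_cases h : L ≤ l
  · rw [lev_succ_ge h]
    have := mul_le_mul_of_nonneg_left (le_max_right 2.2 (2 * lev L l)) hb
    nlinarith
  · have hlow := lev_low (L := L) (l := l) (by omega)
    by_cases h2 : 0 ≤ 2 * lev L l - lev L (l + 1)
    · have h3 := mul_le_mul_of_nonneg_right hab h2
      have h4 : b * (2 * lev L l) ≤ b * max 2.2 (lev L (l + 1)) :=
        mul_le_mul_of_nonneg_left (le_trans (by linarith) (le_max_left _ _)) hb
      nlinarith
    · have h3 : a * (2 * lev L l - lev L (l + 1)) ≤ 0 :=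
        mul_nonpos_of_nonneg_of_nonpos h0 (by linarith)
      have h4 : b * lev L (l + 1) ≤ b * max 2.2 (lev L (l + 1)) :=
        mul_le_mul_of_nonneg_left (le_max_right _ _) hb
      linarith

/-! ## Moment estimates -/

/-- the compositions -/
abbrev TT (L : ℕ) : Finset (Fin (kk L) → ℕ) := Cm (kk L) (NN L)
abbrev OO (L : ℕ) : Finset (Fin (kk L) → ℕ) := Cm (kk L) (NN L - 1)

lemma card_TT (L : ℕ) : ((TT L).card : ℝ) = tr (kk L) (NN L) := by
  rw [card_Cm]; rfl

lemma card_OO (L : ℕ) : ((OO L).card : ℝ) = tr (kk L) (NN L - 1) := by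
  rw [card_Cm]; rfl

/-- the number of coordinates at level at least `L` -/
noncomputable def XX (L : ℕ) (u : Fin (kk L) → ℕ) : ℝ := ∑ i, if L ≤ u i then (1 : ℝ) else 0

lemma sum_XX (L : ℕ) : ∑ u ∈ TT L, XX L u = kk L * tr (kk L) (NN L - L) := by
  unfold XX
  rw [Finset.sum_comm]
  have : ∀ i : Fin (kk L), ∑ u ∈ TT L, (if L ≤ u i then (1 : ℝ) else 0) = tr (kk L) (NN L - L) := by
    intro i
    rw [← Finset.sum_filter, Finset.sum_const, nsmul_eq_mul, mul_one, card_ge (L_le_NN L) i]
    rfl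
  rw [Finset.sum_congr rfl (fun i _ => this i)]
  simp

lemma sum_XX_sq (L : ℕ) : ∑ u ∈ TT L, XX L u ^ 2
    ≤ kk L * tr (kk L) (NN L - L) + (kk L : ℝ) ^ 2 * tr (kk L) (NN L - 2 * L) := by
  have e1 : ∀ u : Fin (kk L) → ℕ, XX L u ^ 2
      = ∑ i, ∑ j, if L ≤ u i ∧ L ≤ u j then (1 : ℝ) else 0 := by
    intro u
    unfold XX
    rw [sq, Finset.sum_mul_sum]
    apply Finset.sum_congr rfl; intro i _
    apply Finset.sum_congr rfl; intro j _
    by_cases h1 : L ≤ u i <;> by_cases h2 : L ≤ u j <;> simp [h1, h2]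
  rw [Finset.sum_congr rfl (fun u _ => e1 u), Finset.sum_comm]
  have e2 : ∀ i : Fin (kk L), ∑ u ∈ TT L, ∑ j, (if L ≤ u i ∧ L ≤ u j then (1 : ℝ) else 0)
      ≤ tr (kk L) (NN L - L) + kk L * tr (kk L) (NN L - 2 * L) := by
    intro i
    rw [Finset.sum_comm]
    have e3 : ∀ j : Fin (kk L), ∑ u ∈ TT L, (if L ≤ u i ∧ L ≤ u j then (1 : ℝ) else 0)
        ≤ (if j = i then tr (kk L) (NN L - L) else 0) + tr (kk L) (NN L - 2 * L) := by
      intro j
      rw [← Finset.sum_filter, Finset.sum_const, nsmul_eq_mul, mul_one]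
      by_cases hij : j = i
      · subst hij
        rw [if_pos rfl]
        have : ((TT L).filter (fun u => L ≤ u j ∧ L ≤ u j)).card = tc (kk L) (NN L - L) := by
          rw [← card_ge (L_le_NN L) j]
          congr 1
          apply Finset.filter_congr
          intro u _; simp
        rw [this]
        have := tr_nonneg (kk L) (NN L - 2 * L)
        unfold tr at this ⊢
        linarith
      · rw [if_neg hij, card_ge2 (L2_le_NN L) (fun h => hij h.symm)]
        unfold tr
        linarith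
    refine le_trans (Finset.sum_le_sum fun j _ => e3 j) ?_
    rw [Finset.sum_add_distrib]
    simp
  refine le_trans (Finset.sum_le_sum fun i _ => e2 i) ?_
  rw [Finset.sum_const, Finset.card_univ, Fintype.card_fin, nsmul_eq_mul]
  apply le_of_eq; ring

/-- Chebyshev: few compositions have all coordinates below `L` -/
lemma few_low (L : ℕ) :
    (((TT L).filter fun u => ∀ i, u i < L).card : ℝ) * 12 ≤ tr (kk L) (NN L) := by
  set T := tr (kk L) (NN L) with hT
  set P := (kk L : ℝ) * tr (kk L) (NN L - L) with hP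
  set Q := (kk L : ℝ) ^ 2 * tr (kk L) (NN L - 2 * L) with hQ
  have hTpos : 0 < T := tr_pos (by unfold kk; omega) _
  have hlow : 12 * T ≤ P := mu_lower L
  have hQT : Q * T ≤ P ^ 2 := by
    have := tr_logconc' L
    calc Q * T = (kk L : ℝ) ^ 2 * (tr (kk L) (NN L - 2 * L) * tr (kk L) (NN L)) := by
          rw [hQ, hT]; ring
      _ ≤ (kk L : ℝ) ^ 2 * (tr (kk L) (NN L - L) ^ 2) :=
          mul_le_mul_of_nonneg_left this (by positivity)
      _ = P ^ 2 := by rw [hP]; ring
  have h1 := sum_XX L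
  have h2 := sum_XX_sq L
  rw [← hP] at h1
  rw [← hP, ← hQ] at h2
  -- sum of squares of `T * X - P`
  have h3 : ∑ u ∈ TT L, (T * XX L u - P) ^ 2 ≤ T ^ 2 * P := by
    have : ∑ u ∈ TT L, (T * XX L u - P) ^ 2
        = T ^ 2 * ∑ u ∈ TT L, XX L u ^ 2 - 2 * T * P * ∑ u ∈ TT L, XX L u + T * P ^ 2 := by
      rw [Finset.mul_sum, Finset.mul_sum, ← Finset.sum_sub_distrib]
      have hc : T * P ^ 2 = ∑ u ∈ TT L, P ^ 2 := by
        rw [Finset.sum_const, nsmul_eq_mul, card_TT]
      rw [hc, ← Finset.sum_add_distrib]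
      apply Finset.sum_congr rfl; intro u _; ring
    rw [this, h1]
    have h4 : T ^ 2 * ∑ u ∈ TT L, XX L u ^ 2 ≤ T ^ 2 * (P + Q) :=
      mul_le_mul_of_nonneg_left h2 (by positivity)
    nlinarith
  have h5 : (((TT L).filter fun u => ∀ i, u i < L).card : ℝ) * P ^ 2
      ≤ ∑ u ∈ TT L, (T * XX L u - P) ^ 2 := by
    calc (((TT L).filter fun u => ∀ i, u i < L).card : ℝ) * P ^ 2
        = ∑ u ∈ (TT L).filter (fun u => ∀ i, u i < L), (T * XX L u - P) ^ 2 := by
          rw [← nsmul_eq_mul, ← Finset.sum_const]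
          apply Finset.sum_congr rfl
          intro u hu
          rw [Finset.mem_filter] at hu
          have : XX L u = 0 := by
            unfold XX
            apply Finset.sum_eq_zero
            intro i _
            rw [if_neg (by have := hu.2 i; omega)]
          rw [this]; ring
      _ ≤ _ := by
          apply Finset.sum_le_sum_of_subset_of_nonneg (Finset.filter_subset _ _)
          intro u _ _; positivity
  have hPpos : 0 < P := by linarith
  have h6 : (((TT L).filter fun u => ∀ i, u i < L).card : ℝ) * P ^ 2 ≤ T ^ 2 * P := h5.trans h3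
  have h7 : (((TT L).filter fun u => ∀ i, u i < L).card : ℝ) * P ≤ T ^ 2 := by
    have : (((TT L).filter fun u => ∀ i, u i < L).card : ℝ) * P * P ≤ T ^ 2 * P := by
      calc _ = (((TT L).filter fun u => ∀ i, u i < L).card : ℝ) * P ^ 2 := by ring
        _ ≤ _ := h6
    exact le_of_mul_le_mul_right this hPpos
  have h8 : (((TT L).filter fun u => ∀ i, u i < L).card : ℝ) * 12 * T ≤ T * T := by
    have hc : (0 : ℝ) ≤ (((TT L).filter fun u => ∀ i, u i < L).card : ℝ) := Nat.cast_nonneg _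
    have := mul_le_mul_of_nonneg_left hlow hc
    nlinarith
  exact le_of_mul_le_mul_right h8 hTpos

/-- the largest value of a profile -/
noncomputable def MM (L : ℕ) (u : Fin (kk L) → ℕ) : ℝ :=
  Finset.univ.sup' ⟨⟨0, by unfold kk; omega⟩, Finset.mem_univ _⟩ (fun i => lev L (u i))

lemma lev_le_MM (L : ℕ) (u : Fin (kk L) → ℕ) (i : Fin (kk L)) : lev L (u i) ≤ MM L u :=
  Finset.le_sup' (fun i => lev L (u i)) (Finset.mem_univ i)

lemma one_le_MM (L : ℕ) (u : Fin (kk L) → ℕ) : 1 ≤ MM L u :=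
  (lev_gt_one L _).le.trans (lev_le_MM L u ⟨0, by unfold kk; omega⟩)

lemma MM_le (L : ℕ) (u : Fin (kk L) → ℕ) :
    MM L u ≤ 1.1 + ∑ i, if L ≤ u i then lev L (u i) else 0 := by
  unfold MM
  apply Finset.sup'_le
  intro i _
  have hnn : ∀ j ∈ Finset.univ, (0 : ℝ) ≤ if L ≤ u j then lev L (u j) else 0 := by
    intro j _
    split_ifs
    · linarith [lev_gt_one L (u j)]
    · exact le_rfl
  by_cases h : L ≤ u i
  · have := Finset.single_le_sum hnn (Finset.mem_univ i)
    rw [if_pos h] at this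
    linarith
  · have := Finset.sum_nonneg hnn
    linarith [lev_low (L := L) (l := u i) (by omega)]

/-- the contribution of the high coordinates -/
lemma sum_high (L : ℕ) (i : Fin (kk L)) :
    ∑ u ∈ TT L, (if L ≤ u i then lev L (u i) else 0) ≤ 4.4 * tr (kk L) (NN L - L) := by
  -- `lev L l ≤ sum over j ≤ l - L of 2.2 * 2 ^ j * [l = L + j]`
  have e1 : ∀ u ∈ TT L, (if L ≤ u i then lev L (u i) else 0)
      ≤ ∑ j ∈ Finset.range (NN L - L + 1), (if L + j ≤ u i then 2.2 * (2 : ℝ) ^ j else 0) := by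
    intro u hu
    have hle : u i ≤ NN L := by
      rw [mem_Cm] at hu
      rw [← hu]
      exact Finset.single_le_sum (f := u) (fun j _ => Nat.zero_le _) (Finset.mem_univ i)
    by_cases h : L ≤ u i
    · rw [if_pos h]
      have hmem : u i - L ∈ Finset.range (NN L - L + 1) := by rw [Finset.mem_range]; omega
      have hs := Finset.single_le_sum
        (f := fun j => (if L + j ≤ u i then 2.2 * (2 : ℝ) ^ j else 0)) (fun j _ => by
          show (0 : ℝ) ≤ if L + j ≤ u i then 2.2 * (2 : ℝ) ^ j else 0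
          split_ifs <;> positivity) hmem
      refine le_trans ?_ hs
      show lev L (u i) ≤ if L + (u i - L) ≤ u i then 2.2 * (2 : ℝ) ^ (u i - L) else 0
      rw [if_pos (by omega), lev_ge h, show u i + 1 - L = (u i - L) + 1 by omega, pow_succ]
      apply le_of_eq; ring
    · rw [if_neg h]
      apply Finset.sum_nonneg
      intro j _
      split_ifs <;> positivity
  refine le_trans (Finset.sum_le_sum e1) ?_
  rw [Finset.sum_comm]
  have e2 : ∀ j ∈ Finset.range (NN L - L + 1),
      ∑ u ∈ TT L, (if L + j ≤ u i then 2.2 * (2 : ℝ) ^ j else 0)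
        ≤ 2.2 * tr (kk L) (NN L - L) * (1 / 2) ^ j := by
    intro j hj
    rw [Finset.mem_range] at hj
    have hL := L_le_NN L
    rw [← Finset.sum_filter, Finset.sum_const, nsmul_eq_mul, card_ge (by omega) i]
    have h1 := tr_quarter_pow L j (NN L - (L + j)) (by omega)
    rw [show NN L - (L + j) + j = NN L - L by omega] at h1
    have h2 : (0 : ℝ) < 4 ^ j := by positivity
    have h3 : (tc (kk L) (NN L - (L + j)) : ℝ) ≤ tr (kk L) (NN L - L) / 4 ^ j := by
      rw [le_div_iff₀ h2]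
      calc (tc (kk L) (NN L - (L + j)) : ℝ) * 4 ^ j = 4 ^ j * tr (kk L) (NN L - (L + j)) := by
            unfold tr; ring
        _ ≤ _ := h1
    calc (tc (kk L) (NN L - (L + j)) : ℝ) * (2.2 * 2 ^ j)
        ≤ tr (kk L) (NN L - L) / 4 ^ j * (2.2 * 2 ^ j) :=
          mul_le_mul_of_nonneg_right h3 (by positivity)
      _ = 2.2 * tr (kk L) (NN L - L) * (2 ^ j / 4 ^ j) := by ring
      _ = 2.2 * tr (kk L) (NN L - L) * (1 / 2) ^ j := by
          rw [← div_pow]; norm_num
  refine le_trans (Finset.sum_le_sum e2) ?_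
  rw [← Finset.mul_sum]
  have e3 : ∑ j ∈ Finset.range (NN L - L + 1), ((1 : ℝ) / 2) ^ j ≤ 2 := by
    have := sum_geometric_two_le (NN L - L + 1)
    exact this
  have h0 := tr_nonneg (kk L) (NN L - L)
  have := mul_le_mul_of_nonneg_left e3 (by positivity : 0 ≤ 2.2 * tr (kk L) (NN L - L))
  linarith

lemma sum_MM_le (L : ℕ) : ∑ u ∈ TT L, MM L u ≤ 112 * tr (kk L) (NN L) := by
  have h1 : ∑ u ∈ TT L, MM L u
      ≤ ∑ u ∈ TT L, (1.1 + ∑ i, if L ≤ u i then lev L (u i) else 0) :=
    Finset.sum_le_sum fun u _ => MM_le L u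
  rw [Finset.sum_add_distrib, Finset.sum_const, nsmul_eq_mul, card_TT, Finset.sum_comm] at h1
  have h2 : ∑ i : Fin (kk L), ∑ u ∈ TT L, (if L ≤ u i then lev L (u i) else 0)
      ≤ ∑ _i : Fin (kk L), 4.4 * tr (kk L) (NN L - L) := Finset.sum_le_sum fun i _ => sum_high L i
  rw [Finset.sum_const, Finset.card_univ, Fintype.card_fin, nsmul_eq_mul] at h2
  have h3 := mu_upper L
  have hT := tr_nonneg (kk L) (NN L)
  nlinarith

end Q58.Look
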