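import Pool.Agent.Q58.Look.Inst

/-!
# A mechanism serving all `k + 1` bidders
-/

namespace Q58.Look

open Finset

variable (L : ℕ)

lemma kk_pos : 0 < kk L := by unfold kk; omega

/-- the threshold of bidder `i`: a function of the other bids -/
noncomputable def thr (b : Fin (kk L + 1) → ℝ) (i : Fin (kk L)) : ℝ :=
  Finset.univ.sup' ⟨⟨0, kk_pos L⟩, Finset.mem_univ _⟩ (fun j : Fin (kk L) =>
    if j = i then
      lev L (NN L - ∑ a ∈ Finset.univ.erase i, Function.invFun (lev L) (b a.castSucc))
    else b j.castSucc)

lemma thr_update (b : Fin (kk L + 1) → ℝ) (i : Fin (kk L)) (t : ℝ) :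
    thr L (Function.update b i.castSucc t) i = thr L b i := by
  unfold thr
  congr 1
  funext j
  by_cases h : j = i
  · rw [if_pos h, if_pos h]
    congr 2
    apply Finset.sum_congr rfl
    intro a ha
    rw [Finset.mem_erase] at ha
    rw [Function.update_of_ne (fun h' => ha.1 (Fin.castSucc_injective _ h'))]
  · rw [if_neg h, if_neg h, Function.update_of_ne (fun h' => h (Fin.castSucc_injective _ h'))]

lemma thr_update_last (b : Fin (kk L + 1) → ℝ) (i : Fin (kk L)) (t : ℝ) :
    thr L (Function.update b (Fin.last _) t) i = thr L b i := by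
  unfold thr
  congr 1
  funext j
  by_cases h : j = i
  · rw [if_pos h, if_pos h]
    congr 2
    apply Finset.sum_congr rfl
    intro a _
    rw [Function.update_of_ne (Fin.castSucc_lt_last a).ne]
  · rw [if_neg h, if_neg h, Function.update_of_ne (Fin.castSucc_lt_last j).ne]

lemma le_thr (b : Fin (kk L + 1) → ℝ) {i j : Fin (kk L)} (h : j ≠ i) :
    b j.castSucc ≤ thr L b i := by
  have := Finset.le_sup' (fun j : Fin (kk L) =>
    if j = i then
      lev L (NN L - ∑ a ∈ Finset.univ.erase i, Function.invFun (lev L) (b a.castSucc))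
    else b j.castSucc) (Finset.mem_univ j)
  simp only [if_neg h] at this
  exact this

lemma lev_le_thr (b : Fin (kk L + 1) → ℝ) (i : Fin (kk L)) :
    lev L (NN L - ∑ a ∈ Finset.univ.erase i, Function.invFun (lev L) (b a.castSucc))
      ≤ thr L b i := by
  have := Finset.le_sup' (fun j : Fin (kk L) =>
    if j = i then
      lev L (NN L - ∑ a ∈ Finset.univ.erase i, Function.invFun (lev L) (b a.castSucc))
    else b j.castSucc) (Finset.mem_univ i)
  simp only [if_true] at this
  exact this

lemma thr_pos (b : Fin (kk L + 1) → ℝ) (i : Fin (kk L)) : 0 < thr L b i := by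
  have h1 := lev_le_thr L b i
  have h2 := lev_gt_one L
    (NN L - ∑ a ∈ Finset.univ.erase i, Function.invFun (lev L) (b a.castSucc))
  linarith

/-- bidder `i` wins -/
def win (b : Fin (kk L + 1) → ℝ) (i : Fin (kk L)) : Prop :=
  thr L b i ≤ b i.castSucc ∧ ∀ j, j < i → b j.castSucc < b i.castSucc

/-- the last bidder wins -/
def lwin (b : Fin (kk L + 1) → ℝ) : Prop := (∀ i, ¬ win L b i) ∧ 1 ≤ b (Fin.last _)

lemma win_unique {b : Fin (kk L + 1) → ℝ} {i j : Fin (kk L)} (hi : win L b i) (hj : win L b j) :
    i = j := by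
  rcases lt_trichotomy i j with h | h | h
  · have h1 := hj.2 i h
    have h2 := le_thr L b (i := i) (j := j) h.ne'
    have h3 := hi.1
    exact absurd (h1.trans_le (h2.trans h3)) (lt_irrefl _)
  · exact h
  · have h1 := hi.2 j h
    have h2 := le_thr L b (i := j) (j := i) h.ne'
    have h3 := hj.1
    exact absurd (h1.trans_le (h2.trans h3)) (lt_irrefl _)

lemma win_update_last (b : Fin (kk L + 1) → ℝ) (i : Fin (kk L)) (t : ℝ) :
    win L (Function.update b (Fin.last _) t) i ↔ win L b i := by
  unfold win
  rw [thr_update_last, Function.update_of_ne (Fin.castSucc_lt_last i).ne]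
  constructor
  · rintro ⟨h1, h2⟩
    refine ⟨h1, fun j hj => ?_⟩
    have := h2 j hj
    rwa [Function.update_of_ne (Fin.castSucc_lt_last j).ne] at this
  · rintro ⟨h1, h2⟩
    refine ⟨h1, fun j hj => ?_⟩
    rw [Function.update_of_ne (Fin.castSucc_lt_last j).ne]
    exact h2 j hj

lemma win_update (b : Fin (kk L + 1) → ℝ) (i : Fin (kk L)) (t : ℝ) :
    win L (Function.update b i.castSucc t) i ↔ thr L b i ≤ t ∧ ∀ j, j < i → b j.castSucc < t := by
  unfold win
  rw [thr_update, Function.update_self]
  constructor
  · rintro ⟨h1, h2⟩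
    refine ⟨h1, fun j hj => ?_⟩
    have := h2 j hj
    rwa [Function.update_of_ne (fun h' => hj.ne (Fin.castSucc_injective _ h'))] at this
  · rintro ⟨h1, h2⟩
    refine ⟨h1, fun j hj => ?_⟩
    rw [Function.update_of_ne (fun h' => hj.ne (Fin.castSucc_injective _ h'))]
    exact h2 j hj

open Classical in
/-- the mechanism -/
noncomputable def mech : Mech (kk L + 1) where
  x := fun b => Fin.snoc (α := fun _ => ℝ) (fun i => if win L b i then 1 else 0)
    (if lwin L b then 1 else 0)
  p := fun b => Fin.snoc (α := fun _ => ℝ) (fun i => if win L b i then thr L b i else 0)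
    (if lwin L b then 1 else 0)

open Classical in
lemma mech_x (b : Fin (kk L + 1) → ℝ) (i : Fin (kk L)) :
    (mech L).x b i.castSucc = if win L b i then 1 else 0 := by simp [mech]

open Classical in
lemma mech_x_last (b : Fin (kk L + 1) → ℝ) :
    (mech L).x b (Fin.last _) = if lwin L b then 1 else 0 := by simp [mech]

open Classical in
lemma mech_p (b : Fin (kk L + 1) → ℝ) (i : Fin (kk L)) :
    (mech L).p b i.castSucc = if win L b i then thr L b i else 0 := by simp [mech]

open Classical in
lemma mech_p_last (b : Fin (kk L + 1) → ℝ) :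
    (mech L).p b (Fin.last _) = if lwin L b then 1 else 0 := by simp [mech]

lemma mech_valid : (mech L).Valid Finset.univ 0 := by
  classical
  intro b hb _
  refine ⟨?_, ?_, ?_, ?_, ?_⟩
  · intro i
    refine Fin.lastCases ?_ (fun i => ?_) i
    · rw [mech_x_last]; split_ifs <;> norm_num
    · rw [mech_x]; split_ifs <;> norm_num
  · rw [Fin.sum_univ_castSucc, mech_x_last]
    simp only [mech_x]
    by_cases h : ∃ i, win L b i
    · obtain ⟨i, hi⟩ := h
      have h1 : ¬ lwin L b := fun h => h.1 i hi
      rw [if_neg h1, Finset.sum_eq_single i]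
      · rw [if_pos hi]; norm_num
      · intro j _ hj
        rw [if_neg (fun hj' => hj (win_unique L hj' hi))]
      · intro h; exact absurd (Finset.mem_univ i) h
    · push Not at h
      rw [Finset.sum_eq_zero (fun i _ => if_neg (h i))]
      split_ifs <;> norm_num
  · intro j hj
    exact absurd (Finset.mem_univ j) hj
  · intro i _
    refine Fin.lastCases ?_ (fun i => ?_) i
    · rw [mech_x_last, mech_p_last]
      split_ifs with h
      · have := h.2; linarith
      · simp
    · rw [mech_x, mech_p]
      split_ifs with h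
      · have := h.1; linarith
      · simp
  · intro i _ t ht
    refine Fin.lastCases ?_ (fun i => ?_) i
    · rw [mech_x_last, mech_p_last, mech_x_last, mech_p_last]
      have e : lwin L (Function.update b (Fin.last _) t) ↔ (∀ i, ¬ win L b i) ∧ 1 ≤ t := by
        unfold lwin
        rw [Function.update_self]
        simp only [win_update_last]
      by_cases h : ∀ i, ¬ win L b i
      · by_cases h1 : 1 ≤ b (Fin.last _)
        · have h2 : lwin L b := ⟨h, h1⟩
          simp only [if_pos h2]
          split_ifs
          · exact le_rfl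
          · linarith
        · have h2 : ¬ lwin L b := fun hh => h1 hh.2
          simp only [if_neg h2]
          split_ifs
          · push Not at h1; linarith
          · exact le_rfl
      · have h2 : ¬ lwin L b := fun hh => h hh.1
        have h3 : ¬ lwin L (Function.update b (Fin.last _) t) := by
          rw [e]; exact fun hh => h hh.1
        simp only [if_neg h2, if_neg h3, le_refl]
    · rw [mech_x, mech_p, mech_x, mech_p, thr_update]
      by_cases h : win L b i
      · rw [if_pos h, if_pos h]
        split_ifs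
        · exact le_rfl
        · have := h.1; linarith
      · rw [if_neg h, if_neg h]
        split_ifs with h2
        · -- losing truthfully means the threshold is at least the value
          have : b i.castSucc ≤ thr L b i := by
            by_contra hcon
            push Not at hcon
            apply h
            refine ⟨hcon.le, fun j hj => ?_⟩
            exact lt_of_le_of_lt (le_thr L b hj.ne) hcon
          linarith
        · exact le_rfl

/-! ## Its revenue -/

lemma inv_lev (l : ℕ) : Function.invFun (lev L) (lev L l) = l :=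
  Function.leftInverse_invFun (lev_strictMono L).injective l

lemma sum_inv (u : Fin (kk L) → ℕ) (i : Fin (kk L)) :
    ∑ a ∈ Finset.univ.erase i, Function.invFun (lev L) (val L u a.castSucc) + u i = ∑ j, u j := by
  rw [← Finset.add_sum_erase _ u (Finset.mem_univ i), add_comm]
  congr 1
  apply Finset.sum_congr rfl
  intro a _
  rw [val_castSucc, inv_lev]

lemma mech_p_nonneg (b : Fin (kk L + 1) → ℝ) (i : Fin (kk L + 1)) : 0 ≤ (mech L).p b i := by
  classical
  refine Fin.lastCases ?_ (fun i => ?_) i
  · rw [mech_p_last]; split_ifs <;> norm_num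
  · rw [mech_p]
    split_ifs
    · exact (thr_pos L b i).le
    · exact le_rfl

lemma rev_T {u : Fin (kk L) → ℕ} (hu : u ∈ TT L) : MM L u ≤ ∑ i, (mech L).p (val L u) i := by
  classical
  rw [mem_Cm] at hu
  -- the first maximizer
  obtain ⟨i0, hi0⟩ : ∃ i0, ∀ j, u j ≤ u i0 := by
    have : Nonempty (Fin (kk L)) := ⟨⟨0, kk_pos L⟩⟩
    exact Finite.exists_max u
  obtain ⟨i, hi, hmin⟩ : ∃ i, (∀ j, u j ≤ u i) ∧ ∀ j, j < i → ¬ (∀ a, u a ≤ u j) := by
    have hne : (Finset.univ.filter fun i : Fin (kk L) => ∀ j, u j ≤ u i).Nonempty :=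
      ⟨i0, by rw [Finset.mem_filter]; exact ⟨Finset.mem_univ _, hi0⟩⟩
    refine ⟨Finset.min' _ hne, ?_, ?_⟩
    · exact (Finset.mem_filter.mp (Finset.min'_mem _ hne)).2
    · intro j hj hcon
      have := Finset.min'_le (Finset.univ.filter fun i : Fin (kk L) => ∀ j, u j ≤ u i) j
        (by rw [Finset.mem_filter]; exact ⟨Finset.mem_univ _, hcon⟩)
      exact absurd hj (not_lt.mpr this)
  have hthr : thr L (val L u) i = MM L u := by
    unfold thr MM
    congr 1
    funext j
    have hs := sum_inv L u i
    by_cases h : j = i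
    · subst h
      rw [if_pos rfl]
      congr 1
      omega
    · rw [if_neg h, val_castSucc]
  have hmax : MM L u = lev L (u i) := by
    apply le_antisymm _ (lev_le_MM L u i)
    unfold MM
    apply Finset.sup'_le
    intro j _
    exact (lev_strictMono L).monotone (hi j)
  have hwin : win L (val L u) i := by
    refine ⟨?_, fun j hj => ?_⟩
    · rw [hthr, hmax, val_castSucc]
    · rw [val_castSucc, val_castSucc]
      apply lev_strictMono L
      have := hmin j hj
      push Not at this
      obtain ⟨a, ha⟩ := this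
      exact lt_of_lt_of_le ha (hi a)
  have hs := Finset.single_le_sum (f := fun i => (mech L).p (val L u) i)
    (fun j _ => mech_p_nonneg L (val L u) j) (Finset.mem_univ i.castSucc)
  refine le_trans ?_ hs
  show MM L u ≤ (mech L).p (val L u) i.castSucc
  rw [mech_p, if_pos hwin, hthr]

lemma rev_O {u : Fin (kk L) → ℕ} (hu : u ∈ OO L) : 1 ≤ ∑ i, (mech L).p (val L u) i := by
  classical
  rw [mem_Cm] at hu
  have hlose : ∀ i, ¬ win L (val L u) i := by
    intro i h
    have h1 := h.1
    have h2 := lev_le_thr L (val L u) i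
    have hs := sum_inv L u i
    have hN := NN_pos L
    have e : NN L - ∑ a ∈ Finset.univ.erase i, Function.invFun (lev L) (val L u a.castSucc)
        = u i + 1 := by omega
    rw [e] at h2
    rw [val_castSucc] at h1
    have h3 := lev_strictMono L (Nat.lt_succ_self (u i))
    simp only [Nat.succ_eq_add_one] at h3
    linarith
  have hl : lwin L (val L u) := ⟨hlose, by rw [val_last]⟩
  have hs := Finset.single_le_sum (f := fun i => (mech L).p (val L u) i)
    (fun j _ => mech_p_nonneg L (val L u) j) (Finset.mem_univ (Fin.last _))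
  refine le_trans ?_ hs
  show (1 : ℝ) ≤ (mech L).p (val L u) (Fin.last _)
  rw [mech_p_last, if_pos hl]

lemma OPT_ge : (1 / ((WW L).card : ℝ)) * (∑ u ∈ TT L, MM L u + tr (kk L) (NN L) / 4)
    ≤ OPT (DD L) := by
  have h := le_OPT (DD L) (mech_valid L)
  rw [sum_supp L (fun v => ∑ i, (mech L).p v i)] at h
  refine le_trans ?_ h
  apply mul_le_mul_of_nonneg_left _ (one_div_nonneg.mpr (card_WW_pos L).le)
  have h1 : ∑ u ∈ TT L, MM L u ≤ ∑ u ∈ TT L, ∑ i, (mech L).p (val L u) i :=
    Finset.sum_le_sum fun u hu => rev_T L hu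
  have h2 : ∑ u ∈ OO L, (1 : ℝ) ≤ ∑ u ∈ OO L, ∑ i, (mech L).p (val L u) i :=
    Finset.sum_le_sum fun u hu => rev_O L hu
  rw [Finset.sum_const, nsmul_eq_mul, mul_one, card_OO] at h2
  have h3 := O_card L
  linarith

lemma OPT_pos : 0 < OPT (DD L) := by
  refine lt_of_lt_of_le ?_ (OPT_ge L)
  apply mul_pos (one_div_pos.mpr (card_WW_pos L))
  have h1 : 0 ≤ ∑ u ∈ TT L, MM L u :=
    Finset.sum_nonneg fun u _ => by linarith [one_le_MM L u]
  have h2 := tr_pos (kk_pos L) (NN L)
  linarith

/-- the gap -/
lemma gap : lookaheadRev (kk L) (DD L) ≤ (1 - 1 / 1000) * OPT (DD L) := by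
  have h1 := lookahead_le L
  have h2 := OPT_ge L
  have h3 := sum_MM_le L
  have hT := tr_pos (kk_pos L) (NN L)
  have ha : (0 : ℝ) < 1 / (WW L).card := one_div_pos.mpr (card_WW_pos L)
  set a := 1 / ((WW L).card : ℝ)
  set S := ∑ u ∈ TT L, MM L u
  set T := tr (kk L) (NN L)
  have h4 : S + 0.1 * T ≤ (1 - 1 / 1000) * (S + T / 4) := by linarith
  calc lookaheadRev (kk L) (DD L) ≤ a * (S + 0.1 * T) := h1
    _ ≤ a * ((1 - 1 / 1000) * (S + T / 4)) := mul_le_mul_of_nonneg_left h4 ha.le
    _ = (1 - 1 / 1000) * (a * (S + T / 4)) := by ring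
    _ ≤ _ := mul_le_mul_of_nonneg_left h2 (by norm_num)

end Q58.Look
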