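import Pool.Agent.Q58.Look.Count

/-!
# Numerical estimates on the number of compositions
-/

namespace Q58.Look

open Finset

/-- the parameters: `N = 8 * 4 ^ L` -/
def NN (L : ℕ) : ℕ := 8 * 4 ^ L

/-- `k = 3 N + 1` -/
def kk (L : ℕ) : ℕ := 3 * NN L + 1

lemma L_le_NN (L : ℕ) : L ≤ NN L := by
  have h : L < 4 ^ L := Nat.lt_pow_self (by norm_num)
  unfold NN; omega

lemma L2_le_NN (L : ℕ) : 2 * L ≤ NN L := by
  have h : L < 4 ^ L := Nat.lt_pow_self (by norm_num)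
  unfold NN; omega

lemma NN_pos (L : ℕ) : 0 < NN L := by unfold NN; positivity

lemma le_kk (L : ℕ) : L ≤ kk L := by
  have := L_le_NN L
  unfold kk; omega

/-- real version of the number of compositions -/
noncomputable def tr (k m : ℕ) : ℝ := (tc k m : ℝ)

lemma tr_nonneg (k m : ℕ) : 0 ≤ tr k m := Nat.cast_nonneg _

lemma tr_succ (k m : ℕ) : tr k (m + 1) * (m + 1) = tr k m * (k + m) := by
  have := tc_succ k m
  unfold tr
  exact_mod_cast this

lemma tr_pos {k : ℕ} (hk : 0 < k) (m : ℕ) : 0 < tr k m := by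
  unfold tr tc
  exact_mod_cast Nat.choose_pos (by omega)

/-- ratio bound: `4 t(m) ≤ t(m+1)` -/
lemma tr_quarter (L m : ℕ) (hm : m + 1 ≤ NN L) : 4 * tr (kk L) m ≤ tr (kk L) (m + 1) := by
  have h1 := tr_succ (kk L) m
  have h0 := tr_nonneg (kk L) m
  have hk : (kk L : ℝ) = 3 * (NN L : ℝ) + 1 := by unfold kk; push_cast; ring
  have hm' : (m : ℝ) + 1 ≤ NN L := by exact_mod_cast hm
  have h2 : 4 * ((m : ℝ) + 1) ≤ kk L + m := by rw [hk]; linarith
  have hmp : (0 : ℝ) < (m : ℝ) + 1 := by positivity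
  have h3 : tr (kk L) m * (4 * ((m : ℝ) + 1)) ≤ tr (kk L) m * (kk L + m) :=
    mul_le_mul_of_nonneg_left h2 h0
  rw [← h1] at h3
  have h4 : (4 * tr (kk L) m) * ((m : ℝ) + 1) ≤ tr (kk L) (m + 1) * ((m : ℝ) + 1) := by linarith
  exact le_of_mul_le_mul_right h4 hmp

lemma tr_quarter_pow (L j m : ℕ) (hj : m + j ≤ NN L) : 4 ^ j * tr (kk L) m ≤ tr (kk L) (m + j) := by
  induction j with
  | zero => simp
  | succ j ih =>
    have h1 := ih (by omega)
    have h2 := tr_quarter L (m + j) (by omega)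
    rw [pow_succ]
    calc (4 : ℝ) ^ j * 4 * tr (kk L) m = 4 * (4 ^ j * tr (kk L) m) := by ring
      _ ≤ 4 * tr (kk L) (m + j) := by linarith
      _ ≤ tr (kk L) (m + (j + 1)) := h2

lemma tr_lower (L j : ℕ) (hj : j ≤ NN L) :
    tr (kk L) (NN L) * (1 - (j : ℝ) ^ 2 / NN L) ≤ 4 ^ j * tr (kk L) (NN L - j) := by
  induction j with
  | zero => simp
  | succ j ih =>
    have h1 := ih (by omega)
    obtain ⟨m, hm⟩ : ∃ m, NN L = m + (j + 1) := ⟨NN L - (j + 1), by omega⟩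
    have e1 : NN L - j = m + 1 := by omega
    have e2 : NN L - (j + 1) = m := by omega
    rw [e1] at h1
    rw [e2]
    have h2 := tr_succ (kk L) m
    have hNp : (0 : ℝ) < NN L := by exact_mod_cast NN_pos L
    have hk : (kk L : ℝ) = 3 * (NN L : ℝ) + 1 := by unfold kk; push_cast; ring
    have hm' : (NN L : ℝ) = m + (j + 1) := by exact_mod_cast hm
    have h0 := tr_nonneg (kk L) m
    have hT := tr_nonneg (kk L) (NN L)
    -- `(m+1) t(m+1) = (k + m) t(m) ≤ 4 N t(m)`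
    have h3 : tr (kk L) (m + 1) * ((m : ℝ) + 1) ≤ tr (kk L) m * (4 * NN L) := by
      rw [h2]
      apply mul_le_mul_of_nonneg_left _ h0
      rw [hk]
      have : (0 : ℝ) ≤ j := Nat.cast_nonneg _
      linarith
    have hm1 : (m : ℝ) + 1 = NN L - j := by linarith
    have h4 : tr (kk L) (m + 1) * (1 - (j : ℝ) / NN L) ≤ 4 * tr (kk L) m := by
      have : (1 - (j : ℝ) / NN L) = ((m : ℝ) + 1) / NN L := by
        rw [hm1]; field_simp
      rw [this, ← mul_div_assoc, div_le_iff₀ hNp]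
      linarith
    have h5 : 0 ≤ 1 - (j : ℝ) / NN L := by
      rw [sub_nonneg, div_le_one hNp, hm']
      have : (0 : ℝ) ≤ m := Nat.cast_nonneg _
      linarith
    have h6 := mul_le_mul_of_nonneg_right h1 h5
    have h7 : (4 : ℝ) ^ j * tr (kk L) (m + 1) * (1 - (j : ℝ) / NN L)
        ≤ 4 ^ (j + 1) * tr (kk L) m := by
      have := mul_le_mul_of_nonneg_left h4 (by positivity : (0 : ℝ) ≤ 4 ^ j)
      calc (4 : ℝ) ^ j * tr (kk L) (m + 1) * (1 - (j : ℝ) / NN L)
          = 4 ^ j * (tr (kk L) (m + 1) * (1 - (j : ℝ) / NN L)) := by ring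
        _ ≤ 4 ^ j * (4 * tr (kk L) m) := this
        _ = _ := by ring
    refine le_trans ?_ (le_trans h6 h7)
    rw [mul_assoc]
    apply mul_le_mul_of_nonneg_left _ hT
    have hjp : (0 : ℝ) ≤ j := Nat.cast_nonneg _
    have e3 : (1 - (j : ℝ) ^ 2 / NN L) * (1 - (j : ℝ) / NN L)
        = 1 - ((j : ℝ) ^ 2 + j) / NN L + (j : ℝ) ^ 2 / NN L * (j / NN L) := by
      field_simp
      ring
    rw [e3]
    have e4 : ((j : ℝ) ^ 2 + j) / NN L ≤ (((j + 1 : ℕ)) : ℝ) ^ 2 / NN L := by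
      apply div_le_div_of_nonneg_right _ hNp.le
      push_cast
      nlinarith
    have e5 : 0 ≤ (j : ℝ) ^ 2 / NN L * (j / NN L) := by positivity
    linarith

/-- log-concavity -/
lemma tr_logconc {k : ℕ} (hk : 0 < k) {a b : ℕ} (hab : a ≤ b) (L : ℕ) :
    tr k a * tr k (b + L) ≤ tr k (a + L) * tr k b := by
  induction L with
  | zero => exact le_rfl
  | succ L ih =>
    have h1 := tr_succ k (b + L)
    have h2 := tr_succ k (a + L)
    have hka : (1 : ℝ) ≤ k := by exact_mod_cast hk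
    have hab' : (a : ℝ) ≤ b := by exact_mod_cast hab
    have hbp : (0 : ℝ) < ((b + L : ℕ) : ℝ) + 1 := by positivity
    have hap : (0 : ℝ) < ((a + L : ℕ) : ℝ) + 1 := by positivity
    have e1 : tr k (b + L + 1) = tr k (b + L) * ((k + (b + L : ℕ)) / (((b + L : ℕ) : ℝ) + 1)) := by
      rw [mul_div_assoc', eq_div_iff hbp.ne']
      exact h1
    have e2 : tr k (a + L + 1) = tr k (a + L) * ((k + (a + L : ℕ)) / (((a + L : ℕ) : ℝ) + 1)) := by
      rw [mul_div_assoc', eq_div_iff hap.ne']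
      exact h2
    rw [← add_assoc, ← add_assoc, e1, e2]
    have e3 : ((k : ℝ) + (b + L : ℕ)) / (((b + L : ℕ) : ℝ) + 1)
        ≤ ((k : ℝ) + (a + L : ℕ)) / (((a + L : ℕ) : ℝ) + 1) := by
      rw [div_le_div_iff₀ hbp hap]
      push_cast
      nlinarith
    calc tr k a * (tr k (b + L) * (((k : ℝ) + (b + L : ℕ)) / (((b + L : ℕ) : ℝ) + 1)))
        = (tr k a * tr k (b + L)) * (((k : ℝ) + (b + L : ℕ)) / (((b + L : ℕ) : ℝ) + 1)) := by ring
      _ ≤ (tr k (a + L) * tr k b) * (((k : ℝ) + (b + L : ℕ)) / (((b + L : ℕ) : ℝ) + 1)) := by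
          apply mul_le_mul_of_nonneg_right ih
          positivity
      _ ≤ (tr k (a + L) * tr k b) * (((k : ℝ) + (a + L : ℕ)) / (((a + L : ℕ) : ℝ) + 1)) := by
          apply mul_le_mul_of_nonneg_left e3
          exact mul_nonneg (tr_nonneg _ _) (tr_nonneg _ _)
      _ = _ := by ring

lemma tr_logconc' (L : ℕ) :
    tr (kk L) (NN L - 2 * L) * tr (kk L) (NN L) ≤ tr (kk L) (NN L - L) ^ 2 := by
  have h2 := L2_le_NN L
  have h := tr_logconc (k := kk L) (by unfold kk; omega) (a := NN L - 2 * L) (b := NN L - L)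
    (by omega) L
  have e1 : NN L - L + L = NN L := by omega
  have e2 : NN L - 2 * L + L = NN L - L := by omega
  rw [e1, e2] at h
  rw [sq]; exact h

lemma sq_le_four_pow (L : ℕ) : (L : ℝ) ^ 2 ≤ 4 ^ L := by
  have h : (L : ℝ) ≤ 2 ^ L := by exact_mod_cast (Nat.lt_pow_self (by norm_num : 1 < 2)).le
  calc (L : ℝ) ^ 2 ≤ (2 ^ L) ^ 2 := by
        apply pow_le_pow_left₀ (Nat.cast_nonneg _) h
    _ = 4 ^ L := by rw [← pow_mul, mul_comm, pow_mul]; norm_num

lemma mu_upper (L : ℕ) : (kk L : ℝ) * tr (kk L) (NN L - L) ≤ 25 * tr (kk L) (NN L) := by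
  have hL := L_le_NN L
  have h1 := tr_quarter_pow L L (NN L - L) (by omega)
  have e1 : NN L - L + L = NN L := by omega
  rw [e1] at h1
  have h4 : (1 : ℝ) ≤ 4 ^ L := one_le_pow₀ (by norm_num)
  have hk : (kk L : ℝ) ≤ 25 * 4 ^ L := by
    unfold kk NN; push_cast; linarith
  have h0 := tr_nonneg (kk L) (NN L - L)
  calc (kk L : ℝ) * tr (kk L) (NN L - L) ≤ 25 * 4 ^ L * tr (kk L) (NN L - L) :=
        mul_le_mul_of_nonneg_right hk h0
    _ = 25 * (4 ^ L * tr (kk L) (NN L - L)) := by ring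
    _ ≤ 25 * tr (kk L) (NN L) := by linarith

lemma mu_lower (L : ℕ) : 12 * tr (kk L) (NN L) ≤ (kk L : ℝ) * tr (kk L) (NN L - L) := by
  have hL := L_le_NN L
  have h1 := tr_lower L L hL
  have hT := tr_nonneg (kk L) (NN L)
  have h4 : (0 : ℝ) < 4 ^ L := by positivity
  have hN : (NN L : ℝ) = 8 * 4 ^ L := by unfold NN; push_cast; ring
  have hhalf : (1 : ℝ) / 2 ≤ 1 - (L : ℝ) ^ 2 / NN L := by
    have : (L : ℝ) ^ 2 / NN L ≤ 1 / 2 := by
      rw [hN, div_le_iff₀ (by positivity)]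
      have := sq_le_four_pow L
      linarith
    linarith
  have h2 : tr (kk L) (NN L) * (1 / 2) ≤ 4 ^ L * tr (kk L) (NN L - L) :=
    le_trans (mul_le_mul_of_nonneg_left hhalf hT) h1
  have hk : 24 * (4 : ℝ) ^ L ≤ kk L := by
    unfold kk NN; push_cast; linarith
  have h0 := tr_nonneg (kk L) (NN L - L)
  have h5 := mul_le_mul_of_nonneg_right hk h0
  linarith

lemma O_card (L : ℕ) : 4 * tr (kk L) (NN L - 1) = tr (kk L) (NN L) := by
  obtain ⟨m, hm⟩ : ∃ m, NN L = m + 1 := ⟨NN L - 1, by have := NN_pos L; omega⟩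
  have h1 := tr_succ (kk L) m
  have hk : (kk L : ℝ) = 3 * (NN L : ℝ) + 1 := by unfold kk; push_cast; ring
  have hm' : (NN L : ℝ) = m + 1 := by exact_mod_cast hm
  have e1 : NN L - 1 = m := by omega
  rw [e1, hm]
  rw [hk, hm'] at h1
  have hmp : (0 : ℝ) < (m : ℝ) + 1 := by positivity
  have h2 : (4 * tr (kk L) m) * ((m : ℝ) + 1) = tr (kk L) (m + 1) * ((m : ℝ) + 1) := by
    rw [h1]; ring
  exact mul_right_cancel₀ hmp.ne' h2

end Q58.Look
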